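import Pool.Agent.Z702.Defs
import Pool.Agent.Y700.ShaVC

/-!
# Finiteness, `Ш[2] = 0` and torsion do not depend on the Weierstrass equation
-/

set_option autoImplicit false

namespace Pool.Agent.Z932.Z702

open WeierstrassCurve

open Pool.Agent.Y700 (VR)

theorem VR_symm {F : Type*} [Field F] {W W' : WeierstrassCurve F} {u r s t : F}
    (h : VR W W' u r s t) : VR W' W u⁻¹ (-r / u ^ 2) (-s / u) ((r * s - t) / u ^ 3) := by
  obtain ⟨u0, e1, e2, e3, e4, e6⟩ := h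
  have f1 : W'.a₁ = (W.a₁ + 2 * s) / u := by
    rw [eq_div_iff u0, ← e1, mul_comm]
  have f2 : W'.a₂ = (W.a₂ - s * W.a₁ + 3 * r - s ^ 2) / u ^ 2 := by
    rw [eq_div_iff (pow_ne_zero 2 u0), ← e2, mul_comm]
  have f3 : W'.a₃ = (W.a₃ + r * W.a₁ + 2 * t) / u ^ 3 := by
    rw [eq_div_iff (pow_ne_zero 3 u0), ← e3, mul_comm]
  have f4 : W'.a₄ = (W.a₄ - s * W.a₃ + 2 * r * W.a₂ - (t + r * s) * W.a₁ + 3 * r ^ 2 -
      2 * s * t) / u ^ 4 := by
    rw [eq_div_iff (pow_ne_zero 4 u0), ← e4, mul_comm]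
  have f6 : W'.a₆ = (W.a₆ + r * W.a₄ + r ^ 2 * W.a₂ + r ^ 3 - t * W.a₃ - t ^ 2 -
      r * t * W.a₁) / u ^ 6 := by
    rw [eq_div_iff (pow_ne_zero 6 u0), ← e6, mul_comm]
  refine ⟨inv_ne_zero u0, ?_, ?_, ?_, ?_, ?_⟩
  · rw [f1]
    field_simp
    ring
  · rw [f1, f2]
    field_simp
    ring
  · rw [f1, f3]
    field_simp
    ring
  · rw [f1, f2, f3, f4]
    field_simp
    ring
  · rw [f1, f2, f3, f4, f6]
    field_simp
    ring

open scoped Classical in
theorem sha_dir {W W' : WeierstrassCurve ℚ} {u r s t : ℚ} (h : VR W W' u r s t) (hD : W'.Δ ≠ 0)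
    (h0 : ∀ x : Pool.Agent.TH841.SH.D.Sha W, x + x = 0 → x = 0)
    (x : Pool.Agent.TH841.SH.D.Sha W') (hx : x + x = 0) : x = 0 := by
  have h0' : ∀ y : Pool.Agent.W262.SH.Sha W, y + y = 0 → y = 0 := fun y hy => by
    have h1 := h0 ((Pool.Agent.TH841.SH.D.eSha W).symm y) (by rw [← map_add, hy, map_zero])
    exact (map_eq_zero_iff _ (Pool.Agent.TH841.SH.D.eSha W).symm.injective).1 h1
  have h2 := Pool.Agent.Y700.sha_two h hD h0' (Pool.Agent.TH841.SH.D.eSha W' x) (by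
    rw [← map_add, hx, map_zero])
  exact (map_eq_zero_iff _ (Pool.Agent.TH841.SH.D.eSha W').injective).1 h2

theorem card_tor {A B : Type*} [AddCommGroup A] [AddCommGroup B] (e : A ≃+ B) :
    Nat.card (AddCommGroup.torsion A) = Nat.card (AddCommGroup.torsion B) := by
  refine Nat.card_congr (e.toEquiv.subtypeEquiv fun x => ?_)
  constructor
  · intro hx
    exact AddMonoidHom.isOfFinAddOrder (e : A →+ B) hx
  · intro hx
    have h1 := AddMonoidHom.isOfFinAddOrder (e.symm : B →+ A) hx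
    have h2 : (e.symm : B →+ A) (e.toEquiv x) = x := e.symm_apply_apply x
    rw [h2] at h1
    exact h1

theorem t_TRN : Pool.Agent.Z702.S_TRN := by
  intro W W' u r s t h hD
  have hD' : W.Δ ≠ 0 := h.delta_ne hD
  have e := h.equiv hD
  refine ⟨⟨fun hf => Finite.of_equiv _ e.toEquiv.symm, fun hf => Finite.of_equiv _ e.toEquiv⟩,
    ⟨fun h0 => sha_dir h hD h0, fun h0 => sha_dir (VR_symm h) hD' h0⟩, (card_tor e).symm⟩

end Pool.Agent.Z932.Z702
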